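import Pool.Agent.H44.DV.Targets
import Pool.Agent.H59.DU.SC

/-!
# Module SM of the board `dv_modules`
-/

set_option autoImplicit false

namespace Pool.Agent.H35.DV.SM

open Pool.Agent.H44.DU Pool.Agent.H59.DU.SC

variable {n : ℕ} (S : Surf n)

/-! ### Positive factors -/

theorem enters_scale (d : ℂ) (l : ℝ) (hl : 0 < l) (s : Side n) :
    S.Enters ((l : ℂ) * d) s ↔ S.Enters d s := by
  unfold Surf.Enters
  have e : (S.Q s - S.P s).re * ((l : ℂ) * d).im - (S.Q s - S.P s).im * ((l : ℂ) * d).re =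
      l * ((S.Q s - S.P s).re * d.im - (S.Q s - S.P s).im * d.re) := by
    simp only [Complex.mul_im, Complex.mul_re, Complex.ofReal_re, Complex.ofReal_im]
    ring
  rw [e]
  exact mul_pos_iff_of_pos_left hl

theorem min_scale (d : ℂ) (l : ℝ) (hl : 0 < l) (h : S.Minimal d) :
    S.Minimal ((l : ℂ) * d) := by
  have hS := step_scale S d l hl
  have hC : S.Cyc ((l : ℂ) * d) = S.Cyc d := by
    funext m x c
    unfold Surf.Cyc
    rw [hS]
  have hP : S.Per ((l : ℂ) * d) = S.Per d := by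
    unfold Surf.Per
    rw [hC]
  have hD : ∀ x, S.DenseSeq d x → S.DenseSeq ((l : ℂ) * d) x := fun x hx s hs =>
    hx s ((enters_scale S d l hl s).1 hs)
  obtain ⟨h1, h2, h3⟩ := h
  refine ⟨by rw [hP]; exact h1, fun x hx => hD x (h2 x ?_), fun x hx => hD x (h3 x ?_)⟩
  · intro k
    have := hx k
    rwa [hS] at this
  · intro k
    have := hx k
    rwa [hS] at this

theorem sub_scale (d : ℂ) (l : ℝ) (hl : 0 < l) (h : S.Subexp d) :
    S.Subexp ((l : ℂ) * d) := by
  have hS := step_scale S d l hl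
  unfold Surf.Subexp at h ⊢
  rw [hS]
  exact h

/-! ### The reversed leaves -/

theorem enters_rev (d : ℂ) (s : Side n) (h : S.Enters (-d) s) : S.Enters d (S.gl s) := by
  unfold Surf.Enters at h ⊢
  have e : S.Q (S.gl s) - S.P (S.gl s) = -((S.a s : ℂ) * (S.Q s - S.P s)) := by
    rw [S.Q_gl, S.P_gl]
    ring
  have ha := S.a_pos s
  rw [e]
  simp only [Complex.neg_re, Complex.neg_im, Complex.mul_re, Complex.mul_im, Complex.ofReal_re,
    Complex.ofReal_im] at h ⊢
  nlinarith [mul_pos ha h]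

theorem gl_inj {s t : Side n} (h : S.gl s = S.gl t) : s = t := by
  rw [← S.gl_gl s, h, S.gl_gl]

theorem dense_rev {d : ℂ} {x : ℕ → Side n × ℂ} (h : S.DenseSeq d (fun k => G S (x k))) :
    S.DenseSeq (-d) x := by
  intro s hs z hz ε hε N
  have ha := S.a_pos s
  obtain ⟨k, hk, h1, h2⟩ := h (S.gl s) (enters_rev S d s hs) _ (G_mem S hz) (S.a s * ε)
    (mul_pos ha hε) N
  have h3 : (x k).1 = s := gl_inj S h1
  refine ⟨k, hk, h3, ?_⟩
  have h4 : (G S (x k)).2 - ((S.a s : ℂ) * z + S.b s) = (S.a s : ℂ) * ((x k).2 - z) := by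
    change (S.a (x k).1 : ℂ) * (x k).2 + S.b (x k).1 - (S.a s * z + S.b s) = _
    rw [h3]
    ring
  rw [h4, norm_mul, Complex.norm_real, Real.norm_of_nonneg ha.le] at h2
  exact lt_of_mul_lt_mul_left h2 ha.le

theorem min_neg {d : ℂ} (h : S.Minimal d) : S.Minimal (-d) := by
  obtain ⟨h1, h2, h3⟩ := h
  refine ⟨?_, fun x hx => dense_rev S (h3 _ fun k => ?_),
    fun x hx => dense_rev S (h2 _ fun k => ?_)⟩
  · refine Set.eq_empty_of_forall_notMem fun p hp => ?_
    have := per_rev' S hp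
    rw [h1] at this
    exact this
  · obtain ⟨c, hc⟩ := hx k
    have h6 := (step_rev S hc).1
    rw [neg_neg] at h6
    exact ⟨_, h6⟩
  · obtain ⟨c, hc⟩ := hx k
    have h6 := (step_rev S hc).1
    rw [neg_neg] at h6
    exact ⟨_, h6⟩

theorem exM : ∃ M : ℝ, 0 < M ∧ ∀ s : Side n, S.a s ≤ M ∧ (S.a s)⁻¹ ≤ M := by
  obtain ⟨M1, h1⟩ := (Set.finite_range fun s : Side n => S.a s).bddAbove
  obtain ⟨M2, h2⟩ := (Set.finite_range fun s : Side n => (S.a s)⁻¹).bddAbove
  refine ⟨max 1 (max M1 M2), lt_of_lt_of_le one_pos (le_max_left _ _), fun s => ⟨?_, ?_⟩⟩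
  · exact (h1 ⟨s, rfl⟩).trans ((le_max_left _ _).trans (le_max_right _ _))
  · exact (h2 ⟨s, rfl⟩).trans ((le_max_right _ _).trans (le_max_right _ _))

theorem sub_neg {d : ℂ} (h : S.Subexp d) : S.Subexp (-d) := by
  intro ε hε
  obtain ⟨C, hC, h0⟩ := h ε hε
  obtain ⟨M, hM, hMa⟩ := exM S
  refine ⟨C * (M * M), by positivity, fun m x c hx => ?_⟩
  set A : ℝ := ∏ k ∈ Finset.range m, S.a (x k).1 with hA
  have hApos : 0 < A := Finset.prod_pos fun k _ => S.a_pos _
  have h1 : C⁻¹ * Real.exp (-ε * m) ≤ A ∧ A ≤ C * Real.exp (ε * m) := by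
    have h2 := h0 m (fun k => G S (x (m - k))) (fun k => S.a (x (m - 1 - k)).1) (fun k hk => by
      have h4 := (step_rev S (hx (m - 1 - k) (by omega))).1
      have e1 : m - 1 - k + 1 = m - k := by omega
      have e2 : m - 1 - k = m - (k + 1) := by omega
      rw [e1, neg_neg] at h4
      change S.Step d (S.a (x (m - 1 - k)).1) (G S (x (m - k))) (G S (x (m - (k + 1))))
      rw [← e2]
      exact h4)
    rw [Finset.prod_range_reflect (fun k => S.a (x k).1) m] at h2
    exact h2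
  have h7 : ∀ k ∈ Finset.range m, c k = (S.a (x (k + 1)).1)⁻¹ := fun k hk =>
    (step_rev S (hx k (Finset.mem_range.1 hk))).2
  have h8 := Finset.prod_range_succ (fun k => S.a (x k).1) m
  have h9 := Finset.prod_range_succ' (fun k => S.a (x k).1) m
  set P : ℝ := ∏ k ∈ Finset.range m, S.a (x (k + 1)).1 with hP
  have hPpos : 0 < P := Finset.prod_pos fun k _ => S.a_pos _
  have hc : ∏ k ∈ Finset.range m, c k = P⁻¹ := by
    rw [Finset.prod_congr rfl h7, Finset.prod_inv_distrib]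
  have hrel : A * S.a (x m).1 = P * S.a (x 0).1 := by
    rw [← h8, h9]
  have ha0 := S.a_pos (x 0).1
  have ham := S.a_pos (x m).1
  have hPi : P⁻¹ = A⁻¹ * (S.a (x 0).1 * (S.a (x m).1)⁻¹) := by
    field_simp
    linarith [hrel]
  rw [hc, hPi]
  have hE1 : 0 < Real.exp (ε * m) := Real.exp_pos _
  have hEE : Real.exp (-ε * m) = (Real.exp (ε * m))⁻¹ := by
    rw [← Real.exp_neg]
    congr 1
    ring
  have hAi1 : A⁻¹ ≤ C * Real.exp (ε * m) := by
    have h10 := inv_anti₀ (by positivity) h1.1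
    rw [hEE] at h10
    rw [mul_inv, inv_inv, inv_inv] at h10
    exact h10
  have hAi2 : C⁻¹ * Real.exp (-ε * m) ≤ A⁻¹ := by
    have h10 := inv_anti₀ hApos h1.2
    rw [mul_inv] at h10
    rw [hEE]
    exact h10
  have hu : S.a (x 0).1 * (S.a (x m).1)⁻¹ ≤ M * M :=
    mul_le_mul (hMa _).1 (hMa _).2 (inv_pos.2 ham).le hM.le
  have hl : (M * M)⁻¹ ≤ S.a (x 0).1 * (S.a (x m).1)⁻¹ := by
    rw [mul_inv]
    refine mul_le_mul ?_ ?_ (inv_pos.2 hM).le ha0.le
    · have := inv_anti₀ (inv_pos.2 ha0) (hMa (x 0).1).2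
      rwa [inv_inv] at this
    · exact inv_anti₀ ham (hMa (x m).1).1
  constructor
  · calc (C * (M * M))⁻¹ * Real.exp (-ε * m) = (C⁻¹ * Real.exp (-ε * m)) * (M * M)⁻¹ := by
          rw [mul_inv]; ring
      _ ≤ A⁻¹ * (S.a (x 0).1 * (S.a (x m).1)⁻¹) :=
          mul_le_mul hAi2 hl (by positivity) (by positivity)
  · calc A⁻¹ * (S.a (x 0).1 * (S.a (x m).1)⁻¹) ≤ (C * Real.exp (ε * m)) * (M * M) :=
          mul_le_mul hAi1 hu (by positivity) (by positivity)
      _ = C * (M * M) * Real.exp (ε * m) := by ring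

theorem pf_SM : D_SM := by
  intro n S d l hl
  rcases lt_or_gt_of_ne hl with h | h
  · have e : (l : ℂ) * d = ((-l : ℝ) : ℂ) * (-d) := by
      push_cast
      ring
    rw [e]
    exact ⟨fun hd => min_scale S (-d) (-l) (by linarith) (min_neg S hd),
      fun hd => sub_scale S (-d) (-l) (by linarith) (sub_neg S hd)⟩
  · exact ⟨min_scale S d l h, sub_scale S d l h⟩

end Pool.Agent.H35.DV.SM
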